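import Pool.Agent.TH879.EQ.Fs

/-!
# Powers of cones (statement `S_POW` of helper537)
-/

set_option autoImplicit false

open MeasureTheory Set Filter Topology Matrix
open scoped ENNReal Pointwise

namespace Pool.Agent.TH879.EQ

open Pool.Agent.TH808 Pool.Agent.TH537.EQ

variable {k l N : ℕ}

lemma CN.add {C : Set (Fin N → ℝ)} (h : CN C) {x y : Fin N → ℝ} (hx : x ∈ C) (hy : y ∈ C) :
    x + y ∈ C := by
  have h1 := h.convex hx hy (a := 1 / 2) (b := 1 / 2) (by norm_num) (by norm_num) (by norm_num)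
  have h2 := h.smul 2 (by norm_num) _ h1
  rw [smul_add, smul_smul, smul_smul] at h2
  norm_num at h2
  exact h2

lemma CN.zero {C : Set (Fin N → ℝ)} (h : CN C) : (0 : Fin N → ℝ) ∈ C := by
  obtain ⟨p, hp⟩ := h.int
  have := h.smul 0 le_rfl p (interior_subset hp)
  rwa [zero_smul] at this

lemma Pos.nonneg {C : Set (Fin N → ℝ)} {e : Fin N → ℝ} (he : Pos C e) {x : Fin N → ℝ}
    (hx : x ∈ C) : 0 ≤ x ⬝ᵥ e := by
  by_cases h : x = 0
  · rw [h, zero_dotProduct]
  · exact (he x hx h).le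

lemma T_zero {C : Set (Fin N → ℝ)} (h : CN C) (e : Fin N → ℝ) : (0 : Fin N → ℝ) ∈ T C e :=
  ⟨CN.zero h, by rw [zero_dotProduct]; exact zero_le_one⟩

lemma T_closed {C : Set (Fin N → ℝ)} (h : CN C) (e : Fin N → ℝ) : IsClosed (T C e) := by
  have h1 : IsClosed {x : Fin N → ℝ | x ⬝ᵥ e ≤ 1} := isClosed_le (by fun_prop) continuous_const
  exact h.closed.inter h1

lemma T_convex {C : Set (Fin N → ℝ)} (h : CN C) (e : Fin N → ℝ) : Convex ℝ (T C e) := by
  have h1 : Convex ℝ {x : Fin N → ℝ | x ⬝ᵥ e ≤ 1} := by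
    intro x hx y hy a b ha hb hab
    simp only [mem_ofPred_eq] at hx hy ⊢
    rw [add_dotProduct, smul_dotProduct, smul_dotProduct, smul_eq_mul, smul_eq_mul]
    nlinarith
  exact h.convex.inter h1

lemma T_compact {C : Set (Fin N → ℝ)} (h : CN C) {e : Fin N → ℝ} (he : Pos C e) :
    IsCompact (T C e) := by
  have hS : IsCompact (Metric.sphere (0 : Fin N → ℝ) 1 ∩ C) :=
    (isCompact_sphere _ _).inter_right h.closed
  obtain ⟨δ, hδ0, hδ⟩ : ∃ δ : ℝ, 0 < δ ∧ ∀ x ∈ Metric.sphere (0 : Fin N → ℝ) 1 ∩ C,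
      δ ≤ x ⬝ᵥ e := by
    rcases (Metric.sphere (0 : Fin N → ℝ) 1 ∩ C).eq_empty_or_nonempty with he' | hne
    · exact ⟨1, one_pos, fun x hx => by rw [he'] at hx; exact absurd hx (notMem_empty x)⟩
    · obtain ⟨x0, hx0, hmin⟩ := hS.exists_isMinOn hne
        (f := fun x => x ⬝ᵥ e) (by fun_prop)
      refine ⟨x0 ⬝ᵥ e, he x0 hx0.2 ?_, fun x hx => hmin hx⟩
      rintro rfl
      have := hx0.1
      simp at this
  refine Metric.isCompact_of_isClosed_isBounded (T_closed h e) ?_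
  refine (Metric.isBounded_closedBall (x := (0 : Fin N → ℝ)) (r := δ⁻¹)).subset ?_
  intro x hx
  rw [mem_closedBall_zero_iff]
  by_cases hx0 : x = 0
  · rw [hx0, norm_zero]; positivity
  · have hn : 0 < ‖x‖ := norm_pos_iff.2 hx0
    have h1 : ‖x‖⁻¹ • x ∈ Metric.sphere (0 : Fin N → ℝ) 1 ∩ C := by
      refine ⟨?_, h.smul _ (by positivity) x hx.1⟩
      rw [mem_sphere_zero_iff_norm, norm_smul, norm_inv, norm_norm]
      exact inv_mul_cancel₀ hn.ne'
    have h2 := hδ _ h1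
    rw [smul_dotProduct, smul_eq_mul] at h2
    have h3 : ‖x‖⁻¹ * (x ⬝ᵥ e) ≤ ‖x‖⁻¹ * 1 := mul_le_mul_of_nonneg_left hx.2 (by positivity)
    have h4 : δ ≤ ‖x‖⁻¹ := by linarith
    exact (le_inv_comm₀ hδ0 hn).1 h4

lemma HT_compact {C : Set (Fin N → ℝ)} (h : CN C) {e : Fin N → ℝ} (he : Pos C e) (u : ℝ) :
    IsCompact (HT C e u) := by
  refine isCompact_convexHull_of_isCompact (IsCompact.union ?_ ?_)
  · exact (T_compact h he).smul _
  · exact (T_compact h he).smul _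

lemma HT_zero {C : Set (Fin N → ℝ)} (h : CN C) (e : Fin N → ℝ) (u : ℝ) :
    (0 : Fin N → ℝ) ∈ HT C e u :=
  subset_convexHull ℝ _ (Or.inl ⟨0, T_zero h e, smul_zero _⟩)

lemma OI_compact {C : Set (Fin N → ℝ)} (h : CN C) {e : Fin N → ℝ} (he : Pos C e)
    (c : Fin N → ℝ) : IsCompact (OI C c) := by
  by_cases hc : c ⬝ᵥ e ≤ 0
  · -- only the origin
    have h1 : OI C c ⊆ {0} := by
      intro x hx
      by_contra hne
      have hx0 : 0 < x ⬝ᵥ e := he x hx.1 hne
      have h2 := Pos.nonneg he hx.2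
      rw [sub_dotProduct] at h2
      linarith
    exact (Set.Finite.subset (finite_singleton _) h1).isCompact
  · push Not at hc
    have h1 : OI C c ⊆ (c ⬝ᵥ e) • T C e := by
      intro x hx
      rw [mem_smul_set_iff_inv_smul_mem₀ hc.ne']
      refine ⟨h.smul _ (by positivity) x hx.1, ?_⟩
      rw [smul_dotProduct, smul_eq_mul, inv_mul_le_iff₀ hc, mul_one]
      have h2 := Pos.nonneg he hx.2
      rw [sub_dotProduct] at h2
      linarith
    refine ((T_compact h he).smul _).of_isClosed_subset ?_ h1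
    have h3 : IsClosed ((fun x => c - x) ⁻¹' C) := h.closed.preimage (by fun_prop)
    exact h.closed.inter h3

/-! ### products -/

/-- the product cone in coordinates -/
noncomputable def PR (D : Set (Fin k → ℝ)) (C : Set (Fin l → ℝ)) : Set (Fin (k + l) → ℝ) :=
  Sp k l '' (D ×ˢ C)

lemma mem_PR {D : Set (Fin k → ℝ)} {C : Set (Fin l → ℝ)} {x : Fin k → ℝ} {y : Fin l → ℝ} :
    Sp k l (x, y) ∈ PR D C ↔ x ∈ D ∧ y ∈ C := by
  unfold PR
  rw [(Sp k l).injective.mem_set_image]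
  rfl

/-- coordinates as a homeomorphism -/
noncomputable def SpH (k l : ℕ) : ((Fin k → ℝ) × (Fin l → ℝ)) ≃ₜ (Fin (k + l) → ℝ) where
  toEquiv := (Sp k l).toEquiv
  continuous_toFun := Sp_cont
  continuous_invFun := Sp_scont

lemma PR_int {D : Set (Fin k → ℝ)} {C : Set (Fin l → ℝ)} {x : Fin k → ℝ} {y : Fin l → ℝ}
    (hx : x ∈ interior D) (hy : y ∈ interior C) : Sp k l (x, y) ∈ interior (PR D C) := by
  have h := (SpH k l).image_interior (D ×ˢ C)
  have e : ⇑(SpH k l) = ⇑(Sp k l) := rfl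
  rw [e] at h
  unfold PR
  rw [← h, interior_prod_eq]
  exact ⟨(x, y), ⟨hx, hy⟩, rfl⟩

lemma PR_CN {D : Set (Fin k → ℝ)} {C : Set (Fin l → ℝ)} (hD : CN D) (hC : CN C) :
    CN (PR D C) where
  closed := by
    have h := (SpH k l).isClosedMap _ (hD.closed.prod hC.closed)
    exact h
  convex := (hD.convex.prod hC.convex).linear_image (Sp k l).toLinearMap
  smul := by
    rintro t ht _ ⟨⟨x, y⟩, ⟨hx, hy⟩, rfl⟩
    refine ⟨(t • x, t • y), ⟨hD.smul t ht x hx, hC.smul t ht y hy⟩, ?_⟩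
    rw [← Prod.smul_mk, map_smul]
  int := by
    obtain ⟨x, hx⟩ := hD.int
    obtain ⟨y, hy⟩ := hC.int
    exact ⟨_, PR_int hx hy⟩

lemma PR_Pos {D : Set (Fin k → ℝ)} {C : Set (Fin l → ℝ)} {f : Fin k → ℝ} {e : Fin l → ℝ}
    (hD : Pos D f) (hC : Pos C e) : Pos (PR D C) (Sp k l (f, e)) := by
  rintro _ ⟨⟨x, y⟩, ⟨hx, hy⟩, rfl⟩ hne
  rw [Sp_dot]
  have h1 := Pos.nonneg hD hx
  have h2 := Pos.nonneg hC hy
  by_cases hx0 : x = 0
  · have hy0 : y ≠ 0 := by
      rintro rfl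
      apply hne
      rw [hx0]
      exact map_zero _
    have := hC y hy hy0
    simp only at *
    linarith
  · have := hD x hx hx0
    simp only at *
    linarith

lemma PR_OI (D : Set (Fin k → ℝ)) (C : Set (Fin l → ℝ)) (d : Fin k → ℝ) (c : Fin l → ℝ) :
    OI (PR D C) (Sp k l (d, c)) = PR (OI D d) (OI C c) := by
  ext z
  obtain ⟨⟨x, y⟩, rfl⟩ := (Sp k l).surjective z
  rw [mem_PR]
  unfold OI
  simp only [mem_ofPred_eq]
  rw [← map_sub, Prod.mk_sub_mk, mem_PR, mem_PR]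
  tauto

/-- membership in a free sum -/
lemma fsum_mem' {A : Set (Fin k → ℝ)} {B : Set (Fin l → ℝ)}
    {s t : ℝ} (hs : 0 ≤ s) (ht : 0 ≤ t) (hst : s + t = 1) {x : Fin k → ℝ}
    {y : Fin l → ℝ} (hx : x ∈ s • A) (hy : y ∈ t • B) : (x, y) ∈ fsum A B := by
  obtain ⟨a, ha, rfl⟩ := hx
  obtain ⟨b, hb, rfl⟩ := hy
  have h1 : (a, (0 : Fin l → ℝ)) ∈ fsum A B := subset_convexHull ℝ _ (Or.inl ⟨_, ha, rfl⟩)
  have h2 : ((0 : Fin k → ℝ), b) ∈ fsum A B := subset_convexHull ℝ _ (Or.inr ⟨_, hb, rfl⟩)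
  have h3 := (convex_convexHull ℝ _) h1 h2 hs ht hst
  have e : s • (a, (0 : Fin l → ℝ)) + t • ((0 : Fin k → ℝ), b) = (s • a, t • b) := by
    rw [Prod.smul_mk, Prod.smul_mk, Prod.mk_add_mk, smul_zero, smul_zero, add_zero, zero_add]
  rw [e] at h3
  exact h3

lemma mem_smul_T {C : Set (Fin N → ℝ)} (hC : CN C) {e : Fin N → ℝ} (he : Pos C e)
    {x : Fin N → ℝ} (hx : x ∈ C) {s : ℝ} (hs : x ⬝ᵥ e ≤ s) : x ∈ s • T C e := by
  have h0 := Pos.nonneg he hx
  rcases (h0.trans hs).eq_or_lt with h | h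
  · have hx0 : x = 0 := by
      by_contra hne
      have := he x hx hne
      linarith
    exact ⟨0, T_zero hC e, by rw [hx0]; exact smul_zero s⟩
  · rw [mem_smul_set_iff_inv_smul_mem₀ h.ne']
    refine ⟨hC.smul _ (by positivity) x hx, ?_⟩
    rw [smul_dotProduct, smul_eq_mul, inv_mul_le_iff₀ h, mul_one]
    exact hs

lemma PR_T {D : Set (Fin k → ℝ)} {C : Set (Fin l → ℝ)} {f : Fin k → ℝ} {e : Fin l → ℝ}
    (hD : CN D) (hC : CN C) (hf : Pos D f) (he : Pos C e) :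
    T (PR D C) (Sp k l (f, e)) = Sp k l '' fsum (T D f) (T C e) := by
  ext z
  obtain ⟨⟨x, y⟩, rfl⟩ := (Sp k l).surjective z
  rw [(Sp k l).injective.mem_set_image]
  constructor
  · rintro ⟨h1, h2⟩
    rw [mem_PR] at h1
    rw [Sp_dot] at h2
    simp only at h2
    have h3 := Pos.nonneg hf h1.1
    have h4 := Pos.nonneg he h1.2
    exact fsum_mem' (s := x ⬝ᵥ f) (t := 1 - x ⬝ᵥ f) h3 (by linarith) (by ring)
      (mem_smul_T hD hf h1.1 le_rfl) (mem_smul_T hC he h1.2 (by linarith))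
  · intro h
    obtain ⟨s, t, hs, ht, hst, ⟨a, ha, hx⟩, ⟨b, hb, hy⟩⟩ := fsum_rep (T_convex hD f)
      (T_convex hC e) ⟨0, T_zero hD f⟩ ⟨0, T_zero hC e⟩ h
    simp only at hx hy
    subst hx
    subst hy
    refine ⟨mem_PR.2 ⟨hD.smul s hs a ha.1, hC.smul t ht b hb.1⟩, ?_⟩
    rw [Sp_dot]
    simp only
    rw [smul_dotProduct, smul_dotProduct, smul_eq_mul, smul_eq_mul]
    have h1 := mul_le_mul_of_nonneg_left ha.2 hs
    have h2 := mul_le_mul_of_nonneg_left hb.2 ht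
    linarith

lemma fsum_sub_left {A A' : Set (Fin k → ℝ)} {B B' : Set (Fin l → ℝ)}
    (hA : A ⊆ A') (hB : B ⊆ B') : fsum A B ⊆ fsum A' B' :=
  convexHull_mono (union_subset_union (image_mono hA) (image_mono hB))

lemma fsum_smul (A : Set (Fin k → ℝ)) (B : Set (Fin l → ℝ)) (r : ℝ) :
    r • fsum A B = fsum (r • A) (r • B) := by
  unfold fsum
  rw [← convexHull_smul, smul_set_union]
  congr 2
  · ext p
    constructor
    · rintro ⟨_, ⟨a, ha, rfl⟩, rfl⟩
      exact ⟨r • a, ⟨a, ha, rfl⟩, by simp [Prod.smul_mk]⟩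
    · rintro ⟨_, ⟨a, ha, rfl⟩, rfl⟩
      exact ⟨(a, 0), ⟨a, ha, rfl⟩, by simp [Prod.smul_mk]⟩
  · ext p
    constructor
    · rintro ⟨_, ⟨a, ha, rfl⟩, rfl⟩
      exact ⟨r • a, ⟨a, ha, rfl⟩, by simp [Prod.smul_mk]⟩
    · rintro ⟨_, ⟨a, ha, rfl⟩, rfl⟩
      exact ⟨(0, a), ⟨a, ha, rfl⟩, by simp [Prod.smul_mk]⟩

lemma fsum_hull (A A' : Set (Fin k → ℝ)) (B B' : Set (Fin l → ℝ)) :
    convexHull ℝ (fsum A B ∪ fsum A' B') =
      fsum (convexHull ℝ (A ∪ A')) (convexHull ℝ (B ∪ B')) := by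
  apply Subset.antisymm
  · refine convexHull_min (union_subset ?_ ?_) (convex_convexHull ℝ _)
    · exact fsum_sub_left (subset_union_left.trans (subset_convexHull ℝ _))
        (subset_union_left.trans (subset_convexHull ℝ _))
    · exact fsum_sub_left (subset_union_right.trans (subset_convexHull ℝ _))
        (subset_union_right.trans (subset_convexHull ℝ _))
  · refine convexHull_min (union_subset ?_ ?_) (convex_convexHull ℝ _)
    · rintro _ ⟨x, hx, rfl⟩
      have h1 : (fun x : Fin k → ℝ => (x, (0 : Fin l → ℝ))) '' convexHull ℝ (A ∪ A') =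
          convexHull ℝ ((fun x : Fin k → ℝ => (x, (0 : Fin l → ℝ))) '' (A ∪ A')) :=
        (LinearMap.inl ℝ (Fin k → ℝ) (Fin l → ℝ)).image_convexHull _
      have h2 : (x, (0 : Fin l → ℝ)) ∈ convexHull ℝ
          ((fun x : Fin k → ℝ => (x, (0 : Fin l → ℝ))) '' (A ∪ A')) := by
        rw [← h1]; exact ⟨x, hx, rfl⟩
      refine convexHull_mono ?_ h2
      rw [image_union]
      refine union_subset_union ?_ ?_
      · exact subset_union_left.trans (subset_convexHull ℝ _)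
      · exact subset_union_left.trans (subset_convexHull ℝ _)
    · rintro _ ⟨x, hx, rfl⟩
      have h1 : (fun x : Fin l → ℝ => ((0 : Fin k → ℝ), x)) '' convexHull ℝ (B ∪ B') =
          convexHull ℝ ((fun x : Fin l → ℝ => ((0 : Fin k → ℝ), x)) '' (B ∪ B')) :=
        (LinearMap.inr ℝ (Fin k → ℝ) (Fin l → ℝ)).image_convexHull _
      have h2 : ((0 : Fin k → ℝ), x) ∈ convexHull ℝ
          ((fun x : Fin l → ℝ => ((0 : Fin k → ℝ), x)) '' (B ∪ B')) := by
        rw [← h1]; exact ⟨x, hx, rfl⟩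
      refine convexHull_mono ?_ h2
      rw [image_union]
      refine union_subset_union ?_ ?_
      · exact subset_union_right.trans (subset_convexHull ℝ _)
      · exact subset_union_right.trans (subset_convexHull ℝ _)

lemma PR_HT {D : Set (Fin k → ℝ)} {C : Set (Fin l → ℝ)} {f : Fin k → ℝ} {e : Fin l → ℝ}
    (hD : CN D) (hC : CN C) (hf : Pos D f) (he : Pos C e) (u : ℝ) :
    HT (PR D C) (Sp k l (f, e)) u = Sp k l '' fsum (HT D f u) (HT C e u) := by
  have e1 : ∀ (r : ℝ) (S : Set ((Fin k → ℝ) × (Fin l → ℝ))),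
      r • (Sp k l '' S) = Sp k l '' (r • S) := by
    intro r S
    ext z
    constructor
    · rintro ⟨_, ⟨p, hp, rfl⟩, rfl⟩
      exact ⟨r • p, ⟨p, hp, rfl⟩, map_smul _ _ _⟩
    · rintro ⟨_, ⟨p, hp, rfl⟩, rfl⟩
      exact ⟨Sp k l p, ⟨p, hp, rfl⟩, (map_smul _ _ _).symm⟩
  unfold HT
  rw [PR_T hD hC hf he, e1, e1, ← image_union, fsum_smul, fsum_smul]
  have e2 := (Sp k l).toLinearMap.image_convexHull
    (fsum ((1 - u) • T D f) ((1 - u) • T C e) ∪ fsum ((-u) • T D f) ((-u) • T C e))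
  have e3 : ⇑(Sp k l).toLinearMap = ⇑(Sp k l) := rfl
  rw [e3] at e2
  rw [← e2, fsum_hull]

theorem pow_aux (N m : ℕ) (C : Set (Fin N → ℝ)) (e c : Fin N → ℝ) (hC : CN C) (he : Pos C e)
    (hc : c ∈ interior C) : ∀ M : ℕ, M = m * N → ∃ (D : Set (Fin M → ℝ)) (f d : Fin M → ℝ),
    CN D ∧ Pos D f ∧
    d ∈ interior D ∧ d ⬝ᵥ f = m * (c ⬝ᵥ e) ∧ volume.real (OI D d) = volume.real (OI C c) ^ m ∧
    M.factorial * volume.real (T D f) = (N.factorial * volume.real (T C e)) ^ m ∧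
    ∀ u : ℝ,
      M.factorial * volume.real (HT D f u) = (N.factorial * volume.real (HT C e u)) ^ m := by
  induction m with
  | zero =>
    intro M hM
    obtain rfl : M = 0 := by rw [hM, zero_mul]
    have huniv : volume.real (univ : Set (Fin 0 → ℝ)) = 1 := by
      rw [Measure.real, volume_pi, Measure.pi_univ]
      simp
    have hne : ∀ S : Set (Fin 0 → ℝ), S.Nonempty → S = univ := by
      rintro S ⟨x, hx⟩
      ext y
      rw [Subsingleton.elim y x]
      simpa using hx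
    have hCN : CN (univ : Set (Fin 0 → ℝ)) :=
      ⟨isClosed_univ, convex_univ, fun _ _ _ _ => mem_univ _, by rw [interior_univ]; exact univ_nonempty⟩
    refine ⟨univ, 0, 0, hCN, fun x _ hx => absurd (Subsingleton.elim x 0) hx,
      by rw [interior_univ]; exact mem_univ _, by simp, ?_, ?_, ?_⟩
    · rw [hne (OI univ 0) ⟨0, mem_univ _, mem_univ _⟩, huniv, pow_zero]
    · rw [hne (T univ 0) ⟨0, T_zero hCN 0⟩, huniv, pow_zero]; simp
    · intro u
      rw [hne (HT univ 0 u) ⟨0, HT_zero hCN 0 u⟩, huniv, pow_zero]; simp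
  | succ m ih =>
    intro M hM
    obtain rfl : M = m * N + N := by rw [hM, Nat.succ_mul]
    obtain ⟨D, f, d, hD, hf, hd, h1, h2, h3, h4⟩ := ih (m * N) rfl
    refine ⟨PR D C, Sp (m * N) N (f, e), Sp (m * N) N (d, c), PR_CN hD hC, PR_Pos hf he,
      PR_int hd hc, ?_, ?_, ?_, ?_⟩
    · rw [Sp_dot]
      simp only
      rw [h1]
      push_cast
      ring
    · rw [PR_OI]
      unfold PR
      rw [vol_pr (OI_compact hD hf d) (OI_compact hC he c), h2, pow_succ]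
    · rw [PR_T hD hC hf he, vol_fs (T_compact hD hf) (T_compact hC he) (T_convex hD f)
        (T_convex hC e) (T_zero hD f) (T_zero hC e), h3, pow_succ]
    · intro u
      rw [PR_HT hD hC hf he, vol_fs (HT_compact hD hf u) (HT_compact hC he u)
        (convex_convexHull ℝ _) (convex_convexHull ℝ _) (HT_zero hD f u) (HT_zero hC e u), h4 u,
        pow_succ]

/-- **powers of cones** -/
theorem t_POW : S_POW := by
  intro N m C e c hC he hc
  obtain ⟨D, f, d, hD, hf, hd, h1, h2, h3, h4⟩ := pow_aux N m C e c hC he hc (m * N) rfl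
  exact ⟨D, f, d, hD, hf, hd, h1, h2, h3, fun u _ _ => h4 u⟩

end Pool.Agent.TH879.EQ
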