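import Pool.Agent.TH808.Vol
import Pool.Agent.TH537.EQ.Defs

/-!
# Free sums and products in coordinates (copied from helper808's files, light imports)
-/

set_option autoImplicit false

open MeasureTheory Set Filter Topology Matrix
open scoped ENNReal Pointwise

namespace Pool.Agent.TH879.EQ

open Pool.Agent.TH808

variable {n k l : ℕ}

/-! ### the exact volume of a free sum -/

lemma exp_sup {g : ℝ → ℝ≥0∞} {D : ℝ≥0∞} (hg1 : ∀ s, g s = 0 ∨ g s = 1)
    (h : ∀ t : ℝ, 0 < t → g t = 1 → ENNReal.ofReal (Real.exp (-t)) ≤ D) :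
    (∫⁻ t in Ioi (0:ℝ), ENNReal.ofReal (Real.exp (-t)) * g t) ≤ D := by
  have hexp1 : ∀ c : ℝ, ∫⁻ s in Ioi c, ENNReal.ofReal (Real.exp (-s)) =
      ENNReal.ofReal (Real.exp (-c)) := by
    intro c
    rw [← ofReal_integral_eq_lintegral_ofReal (integrableOn_exp_neg_Ioi c)
      (Eventually.of_forall fun x => (Real.exp_pos _).le), integral_exp_neg_Ioi]
  set T : Set ℝ := {t | 0 < t ∧ g t = 1} with hT
  rcases T.eq_empty_or_nonempty with hTe | hTne
  · have h0 : ∫⁻ t in Ioi (0:ℝ), ENNReal.ofReal (Real.exp (-t)) * g t = 0 := by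
      rw [setLIntegral_congr_fun measurableSet_Ioi (g := fun _ => (0:ℝ≥0∞)) fun t ht => ?_]
      · simp
      · rcases hg1 t with h2 | h2
        · simp only [h2, mul_zero]
        · exact absurd (show t ∈ T from ⟨ht, h2⟩) (by rw [hTe]; exact notMem_empty t)
    rw [h0]
    exact zero_le
  · have hbdd : BddBelow T := ⟨0, fun t ht => ht.1.le⟩
    set t0 := sInf T with ht0
    have hclosed : IsClosed {t : ℝ | ENNReal.ofReal (Real.exp (-t)) ≤ D} := by
      refine isClosed_le (ENNReal.continuous_ofReal.comp ?_) continuous_const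
      fun_prop
    have hmem : t0 ∈ {t : ℝ | ENNReal.ofReal (Real.exp (-t)) ≤ D} :=
      closure_minimal (fun t ht => h t ht.1 ht.2) hclosed (csInf_mem_closure hTne hbdd)
    refine le_trans ?_ hmem
    calc ∫⁻ t in Ioi (0:ℝ), ENNReal.ofReal (Real.exp (-t)) * g t
        ≤ ∫⁻ t in Ici t0, ENNReal.ofReal (Real.exp (-t)) := by
          rw [← lintegral_indicator measurableSet_Ioi, ← lintegral_indicator measurableSet_Ici]
          refine lintegral_mono fun t => ?_
          by_cases ht : 0 < t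
          · rw [indicator_of_mem (mem_Ioi.2 ht)]
            rcases hg1 t with h2 | h2
            · rw [h2, mul_zero]; exact zero_le
            · rw [h2, mul_one, indicator_of_mem
                (show t ∈ Ici t0 from csInf_le hbdd ⟨ht, h2⟩)]
          · rw [indicator_of_notMem (show t ∉ Ioi (0:ℝ) from ht)]; exact zero_le
      _ = ENNReal.ofReal (Real.exp (-t0)) := by
          rw [← hexp1 t0]
          exact setLIntegral_congr Ioi_ae_eq_Ici.symm

lemma kk_01 {E : Type*} [SMul ℝ E] (K : Set E) (x : E) (s : ℝ) : kk K x s = 0 ∨ kk K x s = 1 := by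
  unfold kk
  by_cases hy : s⁻¹ • x ∈ K
  · right; rw [indicator_of_mem hy]; rfl
  · left; rw [indicator_of_notMem hy]

lemma kk_one {E : Type*} [SMul ℝ E] {K : Set E} {x : E} {s : ℝ} (h : kk K x s = 1) :
    s⁻¹ • x ∈ K := by
  by_contra hcon
  unfold kk at h
  rw [indicator_of_notMem hcon] at h
  exact zero_ne_one h

lemma FF_ge {E : Type*} [AddCommGroup E] [Module ℝ E] {K : Set E} (hK : Convex ℝ K)
    (h0 : (0 : E) ∈ K) {x : E} {s : ℝ} (hs : 0 ≤ s) (hx : x ∈ s • K) :
    ENNReal.ofReal (Real.exp (-s)) ≤ FF K x := by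
  obtain ⟨a, ha, rfl⟩ := hx
  have hexp1 : ∫⁻ r in Ioi s, ENNReal.ofReal (Real.exp (-r)) = ENNReal.ofReal (Real.exp (-s)) := by
    rw [← ofReal_integral_eq_lintegral_ofReal (integrableOn_exp_neg_Ioi s)
      (Eventually.of_forall fun x => (Real.exp_pos _).le), integral_exp_neg_Ioi]
  rw [← hexp1]
  unfold FF
  calc ∫⁻ r in Ioi s, ENNReal.ofReal (Real.exp (-r))
      = ∫⁻ r in Ioi s, ENNReal.ofReal (Real.exp (-r)) * kk K (s • a) r := by
        refine setLIntegral_congr_fun measurableSet_Ioi fun r hr => ?_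
        have hr' : s < r := hr
        have hr0 : 0 < r := hs.trans_lt hr'
        have hmem : r⁻¹ • s • a ∈ K := by
          rw [smul_smul]
          refine hK.smul_mem_of_zero_mem h0 ha ⟨by positivity, ?_⟩
          rw [inv_mul_le_iff₀ hr0, mul_one]
          exact hr'.le
        have h1 : kk K (s • a) r = 1 := by
          unfold kk
          rw [indicator_of_mem hmem]
          rfl
        rw [h1, mul_one]
    _ ≤ _ := lintegral_mono_set (Ioi_subset_Ioi hs)

lemma fsum_rep {E F : Type*} [AddCommGroup E] [Module ℝ E] [AddCommGroup F] [Module ℝ F]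
    {A : Set E} {B : Set F} (hA : Convex ℝ A) (hB : Convex ℝ B) (hA0 : A.Nonempty)
    (hB0 : B.Nonempty) {p : E × F} (hp : p ∈ fsum A B) :
    ∃ s t : ℝ, 0 ≤ s ∧ 0 ≤ t ∧ s + t = 1 ∧ p.1 ∈ s • A ∧ p.2 ∈ t • B := by
  have hconv : Convex ℝ {p : E × F | ∃ s t : ℝ, 0 ≤ s ∧ 0 ≤ t ∧ s + t = 1 ∧ p.1 ∈ s • A ∧
      p.2 ∈ t • B} := by
    rintro ⟨x1, y1⟩ ⟨s1, t1, hs1, ht1, h1, hx1, hy1⟩ ⟨x2, y2⟩ ⟨s2, t2, hs2, ht2, h2, hx2, hy2⟩
      a b ha hb hab
    refine ⟨a * s1 + b * s2, a * t1 + b * t2, by positivity, by positivity, ?_, ?_, ?_⟩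
    · calc a * s1 + b * s2 + (a * t1 + b * t2) = a * (s1 + t1) + b * (s2 + t2) := by ring
        _ = 1 := by rw [h1, h2, mul_one, mul_one, hab]
    · show a • x1 + b • x2 ∈ (a * s1 + b * s2) • A
      rw [hA.add_smul (by positivity) (by positivity), mul_smul, mul_smul]
      exact add_mem_add (smul_mem_smul_set hx1) (smul_mem_smul_set hx2)
    · show a • y1 + b • y2 ∈ (a * t1 + b * t2) • B
      rw [hB.add_smul (by positivity) (by positivity), mul_smul, mul_smul]
      exact add_mem_add (smul_mem_smul_set hy1) (smul_mem_smul_set hy2)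
  refine convexHull_min ?_ hconv hp
  obtain ⟨a0, ha0⟩ := hA0
  obtain ⟨b0, hb0⟩ := hB0
  rintro _ (⟨x, hx, rfl⟩ | ⟨y, hy, rfl⟩)
  · refine ⟨1, 0, zero_le_one, le_rfl, by norm_num, ?_, ?_⟩
    · rw [one_smul]; exact hx
    · exact ⟨b0, hb0, zero_smul _ _⟩
  · refine ⟨0, 1, le_rfl, zero_le_one, by norm_num, ?_, ?_⟩
    · exact ⟨a0, ha0, zero_smul _ _⟩
    · rw [one_smul]; exact hy

/-- **upper bound for the volume of a free sum** -/
theorem vol_fsum_le {A : Set (Fin k → ℝ)} {B : Set (Fin l → ℝ)} (hAc : IsCompact A)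
    (hBc : IsCompact B) (hA : Convex ℝ A) (hB : Convex ℝ B) (hA0 : (0 : Fin k → ℝ) ∈ A)
    (hB0 : (0 : Fin l → ℝ) ∈ B) :
    ((k + l).factorial : ℝ≥0∞) *
        ((volume : Measure (Fin k → ℝ)).prod (volume : Measure (Fin l → ℝ))) (fsum A B) ≤
      ((k.factorial : ℝ≥0∞) * volume A) * ((l.factorial : ℝ≥0∞) * volume B) := by
  have hK := (fsum_compact hAc hBc).isClosed.measurableSet
  have h1 := FF_int (volume : Measure (Fin k → ℝ)) hAc.isClosed.measurableSet
  have h2 := FF_int (volume : Measure (Fin l → ℝ)) hBc.isClosed.measurableSet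
  have : ((volume : Measure (Fin k → ℝ)).prod (volume : Measure (Fin l → ℝ))).IsAddHaarMeasure :=
    Measure.prod.instIsAddHaarMeasure _ _
  have h3 := FF_int ((volume : Measure (Fin k → ℝ)).prod (volume : Measure (Fin l → ℝ))) hK
  have e3 : Module.finrank ℝ ((Fin k → ℝ) × (Fin l → ℝ)) = k + l := by
    rw [Module.finrank_prod, Module.finrank_pi, Module.finrank_pi, Fintype.card_fin,
      Fintype.card_fin]
  rw [e3] at h3
  rw [Module.finrank_pi, Fintype.card_fin] at h1 h2
  rw [← h1, ← h2, ← h3, lintegral_prod _ (FF_meas hK).aemeasurable]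
  calc ∫⁻ x, ∫⁻ y, FF (fsum A B) (x, y) ≤ ∫⁻ x, ∫⁻ y, FF A x * FF B y := by
        refine lintegral_mono fun x => lintegral_mono fun y => ?_
        refine exp_sup (fun s => kk_01 _ _ s) fun r hr hg => ?_
        obtain ⟨s, t, hs, ht, hst, hx, hy⟩ := fsum_rep hA hB ⟨0, hA0⟩ ⟨0, hB0⟩ (kk_one hg)
        have hx' : x ∈ (r * s) • A := by
          have h4 : r⁻¹ • x ∈ s • A := hx
          have h5 := smul_mem_smul_set (a := r) h4
          rwa [smul_smul, smul_inv_smul₀ hr.ne'] at h5
        have hy' : y ∈ (r * t) • B := by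
          have h4 : r⁻¹ • y ∈ t • B := hy
          have h5 := smul_mem_smul_set (a := r) h4
          rwa [smul_smul, smul_inv_smul₀ hr.ne'] at h5
        calc ENNReal.ofReal (Real.exp (-r)) =
            ENNReal.ofReal (Real.exp (-(r * s))) * ENNReal.ofReal (Real.exp (-(r * t))) := by
              rw [← ENNReal.ofReal_mul (Real.exp_pos _).le, ← Real.exp_add]
              congr 2
              linear_combination r * hst
          _ ≤ _ := mul_le_mul' (FF_ge hA hA0 (by positivity) hx')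
              (FF_ge hB hB0 (by positivity) hy')
    _ = (∫⁻ x, FF A x) * ∫⁻ y, FF B y := by
        rw [← lintegral_mul_const _ (FF_meas hAc.isClosed.measurableSet)]
        refine lintegral_congr fun x => ?_
        rw [lintegral_const_mul _ (FF_meas hBc.isClosed.measurableSet)]

/-! ### coordinates of a product -/

/-- the coordinate isomorphism -/
noncomputable def Sp (k l : ℕ) : ((Fin k → ℝ) × (Fin l → ℝ)) ≃ₗ[ℝ] (Fin (k + l) → ℝ) :=
  (LinearEquiv.sumArrowLequivProdArrow (Fin k) (Fin l) ℝ ℝ).symm.trans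
    (LinearEquiv.funCongrLeft ℝ ℝ finSumFinEquiv.symm)

lemma Sp_apply (p : (Fin k → ℝ) × (Fin l → ℝ)) (i : Fin (k + l)) :
    Sp k l p i = Sum.elim p.1 p.2 (finSumFinEquiv.symm i) := rfl

lemma Sp_dot (p q : (Fin k → ℝ) × (Fin l → ℝ)) :
    Sp k l p ⬝ᵥ Sp k l q = p.1 ⬝ᵥ q.1 + p.2 ⬝ᵥ q.2 := by
  unfold dotProduct
  rw [← Equiv.sum_comp finSumFinEquiv, Fintype.sum_sum_type]
  simp [Sp_apply]

lemma Sp_cont : Continuous (Sp k l) := LinearMap.continuous_of_finiteDimensional (Sp k l).toLinearMap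

lemma Sp_scont : Continuous (Sp k l).symm :=
  LinearMap.continuous_of_finiteDimensional (Sp k l).symm.toLinearMap

lemma Sp_mp : MeasurePreserving (Sp k l)
    ((volume : Measure (Fin k → ℝ)).prod (volume : Measure (Fin l → ℝ))) volume := by
  have h1 := volume_measurePreserving_sumPiEquivProdPi_symm (ι := Fin k) (ι' := Fin l)
    (fun _ => ℝ)
  have h2 := volume_measurePreserving_piCongrLeft (ι := Fin (k + l)) (ι' := Fin k ⊕ Fin l)
    (fun _ => ℝ) finSumFinEquiv
  have h3 := h2.comp h1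
  have e : (⇑(MeasurableEquiv.piCongrLeft (fun _ => ℝ) finSumFinEquiv) ∘
      ⇑(MeasurableEquiv.sumPiEquivProdPi fun _ : Fin k ⊕ Fin l => ℝ).symm) = Sp k l := by
    funext p i
    obtain ⟨s, rfl⟩ := finSumFinEquiv.surjective i
    rw [Function.comp_apply, MeasurableEquiv.coe_piCongrLeft, Equiv.piCongrLeft_apply_apply,
      Sp_apply, Equiv.symm_apply_apply]
    cases s <;> rfl
  rw [e] at h3
  exact h3

/-- volume of the image under the coordinate map -/
lemma Sp_vol {S : Set ((Fin k → ℝ) × (Fin l → ℝ))} (hS : IsCompact S) :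
    volume (Sp k l '' S) =
      ((volume : Measure (Fin k → ℝ)).prod (volume : Measure (Fin l → ℝ))) S := by
  have hm := Sp_mp.measure_preimage (s := Sp k l '' S)
    (hS.image Sp_cont).measurableSet.nullMeasurableSet
  rw [preimage_image_eq _ (Sp k l).injective] at hm
  exact hm.symm

/-- exact volume of a free sum -/
lemma vol_fs {A : Set (Fin k → ℝ)} {B : Set (Fin l → ℝ)} (hAc : IsCompact A)
    (hBc : IsCompact B) (hA : Convex ℝ A) (hB : Convex ℝ B) (hA0 : (0 : Fin k → ℝ) ∈ A)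
    (hB0 : (0 : Fin l → ℝ) ∈ B) :
    ((k + l).factorial : ℝ) * volume.real (Sp k l '' fsum A B) =
      ((k.factorial : ℝ) * volume.real A) * ((l.factorial : ℝ) * volume.real B) := by
  have h := le_antisymm (vol_fsum_le hAc hBc hA hB hA0 hB0) (vol_fsum hAc hBc)
  rw [← Sp_vol (fsum_compact hAc hBc)] at h
  have h' := congrArg ENNReal.toReal h
  simp only [ENNReal.toReal_mul, ENNReal.toReal_natCast] at h'
  exact h'

/-- volume of a product -/
lemma vol_pr {A : Set (Fin k → ℝ)} {B : Set (Fin l → ℝ)} (hAc : IsCompact A)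
    (hBc : IsCompact B) :
    volume.real (Sp k l '' (A ×ˢ B)) = volume.real A * volume.real B := by
  unfold Measure.real
  rw [Sp_vol (hAc.prod hBc), Measure.prod_prod, ENNReal.toReal_mul]

end Pool.Agent.TH879.EQ
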